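import Pool.Agent.MWL.Stmts

/-!
Squad MWL (MP_23468a_al), row RMV: moves of residues.
-/

set_option autoImplicit false

namespace Pool.Agent.MWL.H45

open Pool.Agent.MVO Pool.Agent.MWL

theorem psh0 (i : ℕ) (x : ℕ → ℕ) (t : ℕ) :
    psh 0 (fun _ => i) x t = if i = t then x 0 else 0 := by
  unfold psh
  rw [Finset.sum_range_one]

theorem psh1 (f x : ℕ → ℕ) (t : ℕ) :
    psh 1 f x t = (if f 0 = t then x 0 else 0) + (if f 1 = t then x 1 else 0) := by
  unfold psh
  rw [Finset.sum_range_succ, Finset.sum_range_one]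

theorem bmap0 {k i : ℕ} (hi : i ≤ k) (k' : ℕ) : BMap k' k (fun _ => i) :=
  ⟨fun _ _ _ _ => le_refl _, fun _ _ => hi⟩

theorem bmap1 {k i j : ℕ} (hij : i ≤ j) (hj : j ≤ k) :
    BMap 1 k (fun s => if s = 0 then i else j) := by
  refine ⟨?_, ?_⟩
  · intro s t hst _
    by_cases hs : s = 0
    · rw [if_pos hs]
      split_ifs <;> omega
    · rw [if_neg hs, if_neg (by omega)]
  · intro s _
    split_ifs <;> omega

/-- part (2) -/
theorem mv2 {n : ℕ} {R : FC} {d m : ℕ} (hD : DM n R d m) (k : ℕ) (a : ℕ → ℕ) (i c : ℕ)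
    (hi : i ≤ k) (ha : 2 ≤ a i) (hc : d ∣ c) :
    R.R k a (fun t => a t + if t = i then c else 0) := by
  have h1 := (hD.hd c).2 hc
  have h2 := R.push k (fun _ => i) (bmap0 hi 0) h1
  have h3 := R.add (fun t => if t = i then a i - 2 else a t) h2
  refine R.ext ?_ ?_ h3
  · intro t _
    rw [psh0]
    unfold sg
    by_cases ht : t = i
    · subst ht
      rw [if_pos rfl, if_pos rfl, if_pos rfl]
      omega
    · rw [if_neg (fun h => ht h.symm), if_neg ht]
      omega
  · intro t _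
    rw [psh0]
    unfold sg
    by_cases ht : t = i
    · subst ht
      rw [if_pos rfl, if_pos rfl, if_pos rfl, if_pos rfl]
      omega
    · rw [if_neg (fun h => ht h.symm), if_neg ht, if_neg ht]
      omega

/-- part (1) for `i < j` -/
theorem mv1 {n : ℕ} {R : FC} {d m : ℕ} (hD : DM n R d m) (k : ℕ) (a : ℕ → ℕ) (i j c : ℕ)
    (hij : i < j) (hj : j ≤ k) (hai : 2 ≤ a i) (haj : 2 ≤ a j) (hc : m ∣ c) :
    R.R k (fun t => a t + if t = i then c else 0) (fun t => a t + if t = j then c else 0) := by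
  have h1 := (hD.hm c).2 hc
  have h2 := R.push k (fun s => if s = 0 then i else j) (bmap1 hij.le hj) h1
  have h3 := R.add (fun t => if t = i then a i - 2 else if t = j then a j - 2 else a t) h2
  refine R.ext ?_ ?_ h3
  · intro t _
    rw [psh1]
    unfold v2
    by_cases ht : t = i
    · subst ht
      have h5 : j ≠ t := by omega
      simp [h5]
      omega
    · by_cases ht' : t = j
      · subst ht'
        have h5 : i ≠ t := by omega
        simp [h5, ht]
        omega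
      · have h5 : i ≠ t := fun h => ht h.symm
        have h6 : j ≠ t := fun h => ht' h.symm
        simp [h5, h6, ht, ht']
  · intro t _
    rw [psh1]
    unfold v2
    by_cases ht : t = i
    · subst ht
      have h5 : j ≠ t := by omega
      have h6 : t ≠ j := by omega
      simp [h5, h6]
      omega
    · by_cases ht' : t = j
      · subst ht'
        have h5 : i ≠ t := by omega
        simp [h5, ht]
        omega
      · have h5 : i ≠ t := fun h => ht h.symm
        have h6 : j ≠ t := fun h => ht' h.symm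
        simp [h5, h6, ht, ht']

/-- the residues on one block -/
theorem one0 (h1 : HvpStmt) {n : ℕ} {R : FC} {d m : ℕ} (hR : LR n R) (hD : DM n R d m)
    {x y : ℕ → ℕ} (h : R.R 0 x y) : x 0 ≡ y 0 [MOD d] := by
  have hn := hR.pos
  have h2 := R.add (fun _ => 2 + (n - 1) * x 0) h
  have e1 : (n - 1) * x 0 + x 0 = n * x 0 := by
    obtain ⟨n', rfl⟩ : ∃ n', n = n' + 1 := ⟨n - 1, by omega⟩
    rw [Nat.add_sub_cancel]
    ring
  have h3 : R.R 0 (fun j => x j + (2 + (n - 1) * x 0)) (sg 0 2) := by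
    refine R.ext (fun _ _ => rfl) ?_ ((h1 n R hR 0 (fun j => x j + (2 + (n - 1) * x 0)) 0
      (le_refl 0)).2 2 ?_ (le_refl 2) ?_)
    · intro j hj
      have hj0 : j = 0 := by omega
      subst hj0
      simp [sg]
    · omega
    · have e2 : x 0 + (2 + (n - 1) * x 0) = 2 + n * x 0 := by omega
      rw [e2]
      exact Nat.modEq_iff_dvd.2 ⟨-(x 0 : ℤ), by push_cast; ring⟩
  have h4 : R.R 0 (sg 0 2) (sg 0 (2 + ((n - 1) * x 0 + y 0))) := by
    refine R.ext (fun _ _ => rfl) ?_ (R.trans (R.symm h3) h2)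
    intro j hj
    have hj0 : j = 0 := by omega
    subst hj0
    simp [sg]
    omega
  have h5 := (hD.hd _).1 h4
  obtain ⟨e, he⟩ := hD.dn
  obtain ⟨q, hq⟩ := h5
  rw [Nat.modEq_iff_dvd]
  refine ⟨(q : ℤ) - e * x 0, ?_⟩
  have h6 : ((x 0 : ℤ) + ((n - 1 : ℕ) * x 0 + y 0)) = n * x 0 + y 0 := by
    have e3 : x 0 + ((n - 1) * x 0 + y 0) = n * x 0 + y 0 := by omega
    exact_mod_cast e3
  have h7 : (((n - 1 : ℕ) : ℤ) * x 0 + y 0) = d * q := by exact_mod_cast hq
  have h8 : (n : ℤ) = d * e := by exact_mod_cast he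
  rw [h7, h8] at h6
  linear_combination -h6

theorem deg_psh (k : ℕ) (a : ℕ → ℕ) : psh k (fun _ => 0) a 0 = deg k a := by
  unfold psh deg
  simp

/-- the degree -/
theorem dg (h1 : HvpStmt) {n : ℕ} {R : FC} {d m : ℕ} (hR : LR n R) (hD : DM n R d m) {k : ℕ}
    {x y : ℕ → ℕ} (h : R.R k x y) : deg k x ≡ deg k y [MOD d] := by
  have h2 := one0 h1 hR hD (R.push 0 (fun _ => 0) (bmap0 (le_refl 0) k) h)
  rw [deg_psh, deg_psh] at h2
  exact h2

/-- the residues on two blocks -/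
theorem two0 (h1 : HvpStmt) {n : ℕ} {R : FC} {d m : ℕ} (hR : LR n R) (hD : DM n R d m)
    {x y : ℕ → ℕ} (h : R.R 1 x y) : x 0 ≡ y 0 [MOD m] := by
  have hn := hR.pos
  obtain ⟨n', rfl⟩ : ∃ n', n = n' + 1 := ⟨n - 1, by omega⟩
  have hdg := dg h1 hR hD h
  have ed : ∀ z : ℕ → ℕ, deg 1 z = z 0 + z 1 := by
    intro z
    unfold deg
    rw [Finset.sum_range_succ, Finset.sum_range_one]
  rw [ed, ed] at hdg
  -- the two numbers
  obtain ⟨c, hc⟩ : ∃ c, c = x 0 + n' * y 0 := ⟨_, rfl⟩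
  obtain ⟨c', hc'⟩ : ∃ c', c' = y 1 + n' * x 1 := ⟨_, rfl⟩
  have h2 := R.add (v2 (2 + n' * y 0) (2 + n' * x 1)) h
  -- change one entry of a vector on two blocks
  have ch0 : ∀ p q p' : ℕ, 2 ≤ p → 2 ≤ p' → p ≡ p' [MOD n' + 1] → R.R 1 (v2 p q) (v2 p' q) := by
    intro p q p' hp hp' hpp
    refine R.ext (fun _ _ => rfl) ?_ ((h1 (n' + 1) R hR 1 (v2 p q) 0 (by omega)).2 p' ?_ hp' ?_)
    · intro j hj
      have hj0 : j = 0 ∨ j = 1 := by omega
      rcases hj0 with rfl | rfl
      · simp [v2]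
      · simp [v2]
    · simpa [v2] using hp
    · simpa [v2] using hpp
  have ch1 : ∀ p q q' : ℕ, 2 ≤ q → 2 ≤ q' → q ≡ q' [MOD n' + 1] → R.R 1 (v2 p q) (v2 p q') := by
    intro p q q' hp hp' hpp
    refine R.ext (fun _ _ => rfl) ?_ ((h1 (n' + 1) R hR 1 (v2 p q) 1 (by omega)).2 q' ?_ hp' ?_)
    · intro j hj
      have hj0 : j = 0 ∨ j = 1 := by omega
      rcases hj0 with rfl | rfl
      · simp [v2]
      · simp [v2]
    · simpa [v2] using hp
    · simpa [v2] using hpp
  have h3 : R.R 1 (v2 (2 + c) (2 + (n' + 1) * x 1)) (v2 (2 + (n' + 1) * y 0) (2 + c')) := by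
    refine R.ext ?_ ?_ h2
    · intro j hj
      have hj0 : j = 0 ∨ j = 1 := by omega
      rcases hj0 with rfl | rfl
      · simp [v2]
        omega
      · simp [v2]
        ring
    · intro j hj
      have hj0 : j = 0 ∨ j = 1 := by omega
      rcases hj0 with rfl | rfl
      · simp [v2]
        ring
      · simp [v2]
        omega
  have m0 : ∀ z : ℕ, 2 + (n' + 1) * z ≡ 2 [MOD n' + 1] := by
    intro z
    exact Nat.modEq_iff_dvd.2 ⟨-(z : ℤ), by push_cast; ring⟩
  have h4 : R.R 1 (v2 (2 + c) 2) (v2 2 (2 + c')) :=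
    R.trans (R.symm (ch1 _ _ _ (by omega) (le_refl 2) (m0 _)))
      (R.trans h3 (ch0 _ _ _ (by omega) (le_refl 2) (m0 _)))
  -- the correction
  obtain ⟨e, he⟩ := hD.dn
  have hdD : d ∣ c + n' * c' := by
    obtain ⟨q, hq⟩ := Nat.modEq_iff_dvd.1 hdg
    have he' : ((n' : ℤ) + 1) = d * e := by exact_mod_cast he
    have h5 : (d : ℤ) ∣ ((c + n' * c' : ℕ) : ℤ) := by
      refine ⟨e * (y 0 + n' * x 1 + y 1) - e * x 1 - q, ?_⟩
      subst hc hc'
      push_cast at hq ⊢
      linear_combination (-1 : ℤ) * hq + ((y 0 : ℤ) + n' * x 1 + y 1 - x 1) * he'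
    exact_mod_cast h5
  have h5 : R.R 1 (v2 2 (2 + c')) (v2 2 (2 + c' + (c + n' * c'))) := by
    refine R.ext (fun _ _ => rfl) ?_ (mv2 hD 1 (v2 2 (2 + c')) 1 _ (le_refl 1)
      (by simp [v2]) hdD)
    intro j hj
    have hj0 : j = 0 ∨ j = 1 := by omega
    rcases hj0 with rfl | rfl
    · simp [v2]
    · simp [v2]
  have h6 : R.R 1 (v2 2 (2 + c' + (c + n' * c'))) (v2 2 (2 + c)) := by
    refine ch1 _ _ _ (by omega) (by omega) ?_
    exact Nat.modEq_iff_dvd.2 ⟨-(c' : ℤ), by push_cast; ring⟩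
  have h7 := (hD.hm c).1 (R.trans h4 (R.trans h5 h6))
  obtain ⟨g, hg⟩ := h7
  obtain ⟨l, hl⟩ := hD.md.trans hD.dn
  rw [Nat.modEq_iff_dvd]
  refine ⟨(l : ℤ) * y 0 - g, ?_⟩
  have hg' : ((x 0 : ℤ) + n' * y 0) = m * g := by
    rw [hc] at hg
    exact_mod_cast hg
  have hl' : ((n' : ℤ) + 1) = m * l := by exact_mod_cast hl
  linear_combination (-1 : ℤ) * hg' + (y 0 : ℤ) * hl'

/-- the partial sums -/
theorem psum (h1 : HvpStmt) {n : ℕ} {R : FC} {d m : ℕ} (hR : LR n R) (hD : DM n R d m) {k : ℕ}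
    {x y : ℕ → ℕ} (h : R.R k x y) (j : ℕ) (hj : j ≤ k) :
    ∑ i ∈ Finset.range (j + 1), x i ≡ ∑ i ∈ Finset.range (j + 1), y i [MOD m] := by
  have hb : BMap k 1 (fun i => if i ≤ j then 0 else 1) := by
    refine ⟨?_, ?_⟩
    · intro s t hst _
      split_ifs <;> omega
    · intro s _
      split_ifs <;> omega
  have h2 := two0 h1 hR hD (R.push 1 _ hb h)
  have key : ∀ z : ℕ → ℕ, psh k (fun i => if i ≤ j then 0 else 1) z 0 =
      ∑ i ∈ Finset.range (j + 1), z i := by
    intro z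
    unfold psh
    rw [← Finset.sum_filter]
    refine Finset.sum_congr ?_ (fun _ _ => rfl)
    ext i
    rw [Finset.mem_filter, Finset.mem_range, Finset.mem_range]
    constructor
    · rintro ⟨h3, h4⟩
      by_contra h5
      have h6 : (if i ≤ j then 0 else 1) = 0 := h4
      rw [if_neg (by omega)] at h6
      omega
    · intro h3
      exact ⟨by omega, if_pos (by omega)⟩
  rw [key, key] at h2
  exact h2

/-- ROW RMV -/
theorem rmv (h1 : HvpStmt) : RmvStmt := by
  intro n R d m hR hD k a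
  refine ⟨?_, ?_, ?_⟩
  · intro i j c hi hj hij hai haj hc
    rcases lt_or_gt_of_ne hij with h | h
    · exact mv1 hD k a i j c h hj hai haj hc
    · exact R.symm (mv1 hD k a j i c h hi haj hai hc)
  · intro i c hi ha hc
    exact mv2 hD k a i c hi ha hc
  · intro b h
    refine ⟨?_, dg h1 hR hD h⟩
    intro j hj
    rcases j with _ | j
    · have h2 := psum h1 hR hD h 0 hj
      rw [Finset.sum_range_one, Finset.sum_range_one] at h2
      exact h2
    · have h2 := psum h1 hR hD h (j + 1) hj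
      rw [Finset.sum_range_succ, Finset.sum_range_succ _ (j + 1)] at h2
      exact Nat.ModEq.add_left_cancel (psum h1 hR hD h j (by omega)) h2

end Pool.Agent.MWL.H45
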